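import Pool.Agent.TH931.LP.Stm

/-!
# Norm certificates of products (task C6 of the project LP931)
-/

set_option autoImplicit false

open MeasureTheory Set
open scoped ENNReal Matrix Pointwise

noncomputable section

namespace Pool.Agent.TH730.LP931

open Pool.Agent.TH931.LP

variable {n m : ℕ} {U V U' V' : Type}

/-! ### frames -/

lemma h_eq {F : Fr n U V} (hF : Good F) (y : Fin n → ℝ) : F.v (F.vt y) ⬝ᵥ y = F.h y :=
  hF.dhalf.eq y

lemma h_smul {F : Fr n U V} (hF : Good F) (t : ℝ) (ht : 0 < t) (y : Fin n → ℝ) :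
    F.h (t • y) = t * F.h y := by
  rw [← h_eq hF, ← h_eq hF y, show F.vt (t • y) = F.vt y from hF.dhalf.smul t ht y,
    dotProduct_smul, smul_eq_mul]

lemma h_zero {F : Fr n U V} (hF : Good F) : F.h 0 = 0 := by
  rw [← h_eq hF, dotProduct_zero]

lemma h_pos {F : Fr n U V} (hF : Good F) (y : Fin n → ℝ) (hy : y ≠ 0) : 0 < F.h y :=
  hF.dhalf.pos y hy

lemma h_nonneg {F : Fr n U V} (hF : Good F) (y : Fin n → ℝ) : 0 ≤ F.h y := by
  by_cases hy : y = 0
  · rw [hy, h_zero hF]
  · exact (h_pos hF y hy).le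

lemma h_meas [Fintype V] {F : Fr n U V} (hF : Good F) : Measurable F.h := by
  classical
  have : F.h = fun y => ∑ b, ({y | F.vt y = b}.indicator (fun y => F.v b ⬝ᵥ y) y) := by
    funext y
    rw [Finset.sum_eq_single (F.vt y)]
    · rw [Set.indicator_of_mem (by simp), h_eq hF]
    · intro b _ hb
      rw [Set.indicator_of_notMem]
      simpa using fun h => hb h.symm
    · simp
  rw [this]
  refine Finset.measurable_sum _ fun b _ => ?_
  refine Measurable.indicator ?_ (hF.dhalf.meas b)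
  exact (continuous_const.dotProduct continuous_id).measurable

lemma pol_meas [Fintype V] {F : Fr n U V} (hF : Good F) : MeasurableSet F.pol :=
  measurableSet_le (h_meas hF) measurable_const

lemma vol_pol_ne {F : Fr n U V} (hF : Good F) : volume F.pol ≠ 0 ∧ volume F.pol ≠ ∞ := by
  have h := hF.vol
  have h4 : (0 : ℝ) < 4 ^ n / n.factorial := by positivity
  have h1 : volume.real F.pol ≠ 0 := by
    intro h0
    rw [h0, mul_zero] at h
    linarith
  constructor
  · intro h0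
    exact h1 (by rw [Measure.real, h0]; rfl)
  · intro h0
    exact h1 (by rw [Measure.real, h0]; rfl)

/-! ### blocks -/

@[simp] lemma p1_append (x : Fin n → ℝ) (y : Fin m → ℝ) : p1 (Fin.append x y) = x := by
  funext i
  simp [p1]

@[simp] lemma p2_append (x : Fin n → ℝ) (y : Fin m → ℝ) : p2 (Fin.append x y) = y := by
  funext i
  simp [p2]

@[simp] lemma append_p (b : Fin (n + m) → ℝ) : Fin.append (p1 b) (p2 b) = b :=
  Fin.append_castAdd_natAdd

lemma p1_meas : Measurable (p1 : (Fin (n + m) → ℝ) → Fin n → ℝ) :=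
  measurable_pi_lambda _ fun _ => measurable_pi_apply _

lemma p2_meas : Measurable (p2 : (Fin (n + m) → ℝ) → Fin m → ℝ) :=
  measurable_pi_lambda _ fun _ => measurable_pi_apply _

lemma append_meas : Measurable fun z : (Fin n → ℝ) × (Fin m → ℝ) => Fin.append z.1 z.2 := by
  refine measurable_pi_lambda _ fun i => ?_
  refine Fin.addCases (fun j => ?_) (fun j => ?_) i
  · simp only [Fin.append_left]
    exact (measurable_pi_apply j).comp measurable_fst
  · simp only [Fin.append_right]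
    exact (measurable_pi_apply j).comp measurable_snd

lemma dot_append (x : Fin n → ℝ) (y : Fin m → ℝ) (b : Fin (n + m) → ℝ) :
    Fin.append x y ⬝ᵥ b = x ⬝ᵥ p1 b + y ⬝ᵥ p2 b := by
  simp only [dotProduct, Fin.sum_univ_add, Fin.append_left, Fin.append_right, p1, p2]

lemma append_dot (x : Fin n → ℝ) (y : Fin m → ℝ) (b : Fin (n + m) → ℝ) :
    b ⬝ᵥ Fin.append x y = p1 b ⬝ᵥ x + p2 b ⬝ᵥ y := by
  simp only [dotProduct, Fin.sum_univ_add, Fin.append_left, Fin.append_right, p1, p2]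

lemma lint_prod (hA : S_app) (f : (Fin (n + m) → ℝ) → ℝ≥0∞) (hf : Measurable f) :
    ∫⁻ x, f x = ∫⁻ x1 : Fin n → ℝ, ∫⁻ x2 : Fin m → ℝ, f (Fin.append x1 x2) := hA n m f hf

lemma lint_prod_swap (hA : S_app) (f : (Fin (n + m) → ℝ) → ℝ≥0∞) (hf : Measurable f) :
    ∫⁻ x, f x = ∫⁻ x2 : Fin m → ℝ, ∫⁻ x1 : Fin n → ℝ, f (Fin.append x1 x2) := by
  rw [hA n m f hf, lintegral_lintegral_swap]
  exact (hf.comp append_meas).aemeasurable

/-! ### one factor with weights -/

lemma vol_le [Fintype V] {F : Fr n U V} (hF : Good F) (s : ℝ) (hs : 0 ≤ s) :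
    volume {y | F.h y ≤ s} = ENNReal.ofReal (s ^ n) * volume F.pol := by
  have hn := hF.n_pos
  rcases hs.eq_or_lt with rfl | hs
  · have : {y | F.h y ≤ 0} = {0} := by
      ext y
      simp only [Set.mem_ofPred_eq, mem_singleton_iff]
      constructor
      · intro h
        by_contra hy
        exact absurd (h_pos hF y hy) (not_lt.2 h)
      · rintro rfl
        exact (h_zero hF).le
    have hn' : Nonempty (Fin n) := ⟨⟨0, hn⟩⟩
    rw [this, zero_pow hn.ne', ENNReal.ofReal_zero, zero_mul]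
    exact measure_singleton 0
  · have : {y | F.h y ≤ s} = s • F.pol := by
      ext y
      rw [Set.mem_smul_set_iff_inv_smul_mem₀ hs.ne']
      simp only [Set.mem_ofPred_eq, Fr.pol]
      rw [h_smul hF _ (inv_pos.2 hs), inv_mul_le_iff₀ hs, mul_one]
    rw [this, Measure.addHaar_smul]
    simp [abs_of_pos (pow_pos hs n)]

lemma sphere_null [Fintype V] (hR : S_rad) {F : Fr n U V} (hF : Good F) (s : ℝ) :
    volume {y | F.h y = s} = 0 := by
  classical
  have hms : Measurable (fun r : ℝ => ({s} : Set ℝ).indicator (fun _ => (1 : ℝ≥0∞)) r) :=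
    measurable_const.indicator (measurableSet_singleton s)
  have h := hR n F.h hF.n_pos (h_meas hF) (h_nonneg hF) (h_smul hF) (vol_pol_ne hF).2
    (fun _ => 1) measurable_const (fun _ _ _ => rfl)
    (fun r => ({s} : Set ℝ).indicator (fun _ => (1 : ℝ≥0∞)) r) hms
  have h1 : ∫⁻ y, ({s} : Set ℝ).indicator (fun _ => (1 : ℝ≥0∞)) (F.h y) * 1 =
      volume {y | F.h y = s} := by
    have : (fun y => ({s} : Set ℝ).indicator (fun _ => (1 : ℝ≥0∞)) (F.h y) * 1) =
        {y | F.h y = s}.indicator (fun _ => 1) := by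
      funext y
      by_cases hy : F.h y = s <;> simp [hy]
    rw [this, lintegral_indicator (measurableSet_eq_fun (h_meas hF) measurable_const)]
    simp
  rw [← h1, h]
  have h2 : ∫⁻ r in Ioi (0 : ℝ), ENNReal.ofReal (n * r ^ (n - 1)) *
      ({s} : Set ℝ).indicator (fun _ => (1 : ℝ≥0∞)) r = 0 := by
    rw [lintegral_eq_zero_iff]
    · rw [Filter.EventuallyEq, ae_iff]
      refine measure_mono_null (t := {s}) ?_ ?_
      · intro r hr
        by_contra hrs
        apply hr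
        simp [Set.indicator_of_notMem hrs]
      · exact (Measure.absolutelyContinuous_of_le Measure.restrict_le_self) Real.volume_singleton
    · fun_prop
  rw [h2, zero_mul]

lemma rad_pol [Fintype V] (hR : S_rad) {F : Fr n U V} (hF : Good F) (f : (Fin n → ℝ) → ℝ≥0∞)
    (hf : Measurable f) (hf0 : ∀ t : ℝ, 0 < t → ∀ y, f (t • y) = f y) (Φ : ℝ → ℝ≥0∞)
    (hΦ : Measurable Φ) :
    ∫⁻ y in F.pol, Φ (F.h y) * f y =
      (∫⁻ r in Ioc (0 : ℝ) 1, ENNReal.ofReal (n * r ^ (n - 1)) * Φ r) * ∫⁻ y in F.pol, f y := by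
  have h := hR n F.h hF.n_pos (h_meas hF) (h_nonneg hF) (h_smul hF) (vol_pol_ne hF).2
    f hf hf0 ((Iic (1 : ℝ)).indicator Φ) (hΦ.indicator measurableSet_Iic)
  have h1 : ∫⁻ y in F.pol, Φ (F.h y) * f y = ∫⁻ y, (Iic (1 : ℝ)).indicator Φ (F.h y) * f y := by
    rw [← lintegral_indicator (pol_meas hF)]
    congr 1
    funext y
    by_cases hy : F.h y ≤ 1
    · rw [Set.indicator_of_mem (show y ∈ F.pol from hy),
        Set.indicator_of_mem (show F.h y ∈ Iic (1 : ℝ) from hy)]
    · rw [Set.indicator_of_notMem (show y ∉ F.pol from hy),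
        Set.indicator_of_notMem (show F.h y ∉ Iic (1 : ℝ) from hy), zero_mul]
  rw [h1, h]
  congr 1
  have h2 : (fun r : ℝ => ENNReal.ofReal (n * r ^ (n - 1)) * (Iic (1 : ℝ)).indicator Φ r) =
      (Iic (1 : ℝ)).indicator (fun r : ℝ => ENNReal.ofReal (n * r ^ (n - 1)) * Φ r) := by
    funext r
    by_cases hr : r ∈ Iic (1 : ℝ)
    · rw [Set.indicator_of_mem hr, Set.indicator_of_mem hr]
    · rw [Set.indicator_of_notMem hr, Set.indicator_of_notMem hr, mul_zero]
  rw [h2, lintegral_indicator measurableSet_Iic, Measure.restrict_restrict measurableSet_Iic,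
    Iic_inter_Ioi]

/-! ### integrals over the polar body of a product -/

lemma prod_pol (F : Fr n U V) (G : Fr m U' V') (b : Fin (n + m) → ℝ) :
    b ∈ (F.prod G).pol ↔ F.h (p1 b) + G.h (p2 b) ≤ 1 := Iff.rfl

lemma prod_pol_meas [Fintype V] [Fintype V'] {F : Fr n U V} {G : Fr m U' V'} (hF : Good F)
    (hG : Good G) : MeasurableSet (F.prod G).pol :=
  measurableSet_le (((h_meas hF).comp p1_meas).add ((h_meas hG).comp p2_meas)) measurable_const

lemma int_snd [Fintype V] [Fintype V'] (hA : S_app) {F : Fr n U V} {G : Fr m U' V'}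
    (hF : Good F) (hG : Good G) (f : (Fin m → ℝ) → ℝ≥0∞) (hf : Measurable f) :
    ∫⁻ b in (F.prod G).pol, f (p2 b) =
      volume F.pol * ∫⁻ y in G.pol, ENNReal.ofReal ((1 - G.h y) ^ n) * f y := by
  have hmf : Measurable fun b : Fin (n + m) → ℝ => f (p2 b) := hf.comp p2_meas
  rw [← lintegral_indicator (prod_pol_meas hF hG), lint_prod_swap hA _
    (hmf.indicator (prod_pol_meas hF hG)), ← lintegral_indicator (pol_meas hG),
    ← lintegral_const_mul]
  · congr 1
    funext y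
    have h1 : ∀ x : Fin n → ℝ, (F.prod G).pol.indicator (fun b => f (p2 b)) (Fin.append x y) =
        {x | F.h x ≤ 1 - G.h y}.indicator (fun _ => f y) x := by
      intro x
      by_cases hx : F.h x ≤ 1 - G.h y
      · rw [Set.indicator_of_mem (show x ∈ {x | F.h x ≤ 1 - G.h y} from hx),
          Set.indicator_of_mem (by rw [prod_pol, p1_append, p2_append]; linarith), p2_append]
      · rw [Set.indicator_of_notMem (show x ∉ {x | F.h x ≤ 1 - G.h y} from hx),
          Set.indicator_of_notMem (by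
            rw [prod_pol, p1_append, p2_append]; intro h; exact hx (by linarith))]
    simp_rw [h1]
    rw [lintegral_indicator (measurableSet_le (h_meas hF) measurable_const), lintegral_const,
      Measure.restrict_apply_univ]
    by_cases hy : G.h y ≤ 1
    · rw [Set.indicator_of_mem (show y ∈ G.pol from hy), vol_le hF _ (by linarith)]
      ring
    · rw [Set.indicator_of_notMem (show y ∉ G.pol from hy), mul_zero]
      have : {x | F.h x ≤ 1 - G.h y} = ∅ := by
        ext x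
        simp only [Set.mem_ofPred_eq, mem_empty_iff_false, iff_false]
        have := h_nonneg hF x
        intro h
        exact hy (by linarith)
      rw [this, measure_empty, mul_zero]
  · refine Measurable.indicator ?_ (pol_meas hG)
    exact (((measurable_const.sub (h_meas hG)).pow_const n).ennreal_ofReal).mul hf

lemma lint_smul (k : (Fin n → ℝ) → ℝ≥0∞) (hk : Measurable k) (s : ℝ) (hs : 0 < s) :
    ∫⁻ x, k (s⁻¹ • x) = ENNReal.ofReal (s ^ n) * ∫⁻ x, k x := by
  have h := Measure.map_addHaar_smul (volume : Measure (Fin n → ℝ)) (r := s⁻¹)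
    (inv_ne_zero hs.ne')
  have h1 : ∫⁻ x, k (s⁻¹ • x) = ∫⁻ x, k x ∂(Measure.map (s⁻¹ • ·) volume) := by
    rw [lintegral_map hk (measurable_const_smul s⁻¹)]
  rw [h1, h, lintegral_smul_measure, smul_eq_mul]
  congr 2
  rw [Module.finrank_fin_fun, inv_pow, inv_inv, abs_of_pos (pow_pos hs n)]

lemma int_scaled [Fintype V] [Fintype V'] (hA : S_app) {F : Fr n U V} {G : Fr m U' V'}
    (hF : Good F) (hG : Good G) (f : (Fin n → ℝ) → ℝ≥0∞) (hf : Measurable f) :
    ∫⁻ b in (F.prod G).pol, f ((1 - G.h (p2 b))⁻¹ • p1 b) =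
      (∫⁻ x in F.pol, f x) * ∫⁻ y in G.pol, ENNReal.ofReal ((1 - G.h y) ^ n) := by
  have hn := hF.n_pos
  have hmf : Measurable fun b : Fin (n + m) → ℝ => f ((1 - G.h (p2 b))⁻¹ • p1 b) :=
    hf.comp (((measurable_const.sub ((h_meas hG).comp p2_meas)).inv).smul p1_meas)
  rw [← lintegral_indicator (prod_pol_meas hF hG), lint_prod_swap hA _
    (hmf.indicator (prod_pol_meas hF hG)), ← lintegral_indicator (pol_meas hG),
    ← lintegral_const_mul]
  · congr 1
    funext y
    have h1 : ∀ x : Fin n → ℝ, (F.prod G).pol.indicator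
        (fun b => f ((1 - G.h (p2 b))⁻¹ • p1 b)) (Fin.append x y) =
        {x | F.h x ≤ 1 - G.h y}.indicator (fun x => f ((1 - G.h y)⁻¹ • x)) x := by
      intro x
      by_cases hx : F.h x ≤ 1 - G.h y
      · rw [Set.indicator_of_mem (show x ∈ {x | F.h x ≤ 1 - G.h y} from hx),
          Set.indicator_of_mem (by rw [prod_pol, p1_append, p2_append]; linarith), p2_append,
          p1_append]
      · rw [Set.indicator_of_notMem (show x ∉ {x | F.h x ≤ 1 - G.h y} from hx),
          Set.indicator_of_notMem (by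
            rw [prod_pol, p1_append, p2_append]; intro h; exact hx (by linarith))]
    simp_rw [h1]
    rcases lt_trichotomy (G.h y) 1 with hy | hy | hy
    · have hs : 0 < 1 - G.h y := by linarith
      rw [Set.indicator_of_mem (show y ∈ G.pol from hy.le)]
      have h2 : ∀ x : Fin n → ℝ, {x | F.h x ≤ 1 - G.h y}.indicator
          (fun x => f ((1 - G.h y)⁻¹ • x)) x = F.pol.indicator f ((1 - G.h y)⁻¹ • x) := by
        intro x
        have h3 : (1 - G.h y)⁻¹ • x ∈ F.pol ↔ F.h x ≤ 1 - G.h y := by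
          show F.h _ ≤ 1 ↔ _
          rw [h_smul hF _ (inv_pos.2 hs), inv_mul_le_iff₀ hs, mul_one]
        by_cases hx : F.h x ≤ 1 - G.h y
        · rw [Set.indicator_of_mem (show x ∈ {x | F.h x ≤ 1 - G.h y} from hx),
            Set.indicator_of_mem (h3.2 hx)]
        · rw [Set.indicator_of_notMem (show x ∉ {x | F.h x ≤ 1 - G.h y} from hx),
            Set.indicator_of_notMem (fun h => hx (h3.1 h))]
      simp_rw [h2]
      rw [lint_smul _ (hf.indicator (pol_meas hF)) _ hs, lintegral_indicator (pol_meas hF)]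
      ring
    · rw [Set.indicator_of_mem (show y ∈ G.pol from hy.le), hy, sub_self, zero_pow hn.ne',
        ENNReal.ofReal_zero, mul_zero]
      have h2 : volume {x | F.h x ≤ (0 : ℝ)} = 0 := by
        rw [vol_le hF 0 le_rfl, zero_pow hn.ne', ENNReal.ofReal_zero, zero_mul]
      rw [lintegral_indicator (measurableSet_le (h_meas hF) measurable_const)]
      exact setLIntegral_measure_zero _ _ h2
    · rw [Set.indicator_of_notMem (show y ∉ G.pol from not_le.2 hy), mul_zero]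
      have : {x | F.h x ≤ 1 - G.h y} = ∅ := by
        ext x
        simp only [Set.mem_ofPred_eq, mem_empty_iff_false, iff_false]
        have := h_nonneg hF x
        intro h
        linarith
      rw [this]
      simp
  · refine Measurable.indicator ?_ (pol_meas hG)
    exact ((measurable_const.sub (h_meas hG)).pow_const n).ennreal_ofReal

/-! ### radial integrals -/

/-- the beta value -/
def bt (n m : ℕ) : ℝ := m.factorial * n.factorial / (m + n).factorial

lemma bt_pos (n m : ℕ) : 0 < bt n m := by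
  unfold bt
  positivity

lemma HH_mono {a b : ℕ} (h : a ≤ b) : HH a ≤ HH b := by
  unfold HH
  exact Finset.sum_le_sum_of_subset_of_nonneg (Finset.range_mono h)
    fun i _ _ => by positivity

lemma beta0 (hB : S_beta) (hm : 1 ≤ m) :
    ∫⁻ r in Ioc (0 : ℝ) 1, ENNReal.ofReal (m * r ^ (m - 1)) * ENNReal.ofReal ((1 - r) ^ n) =
      ENNReal.ofReal (bt n m) := by
  rw [bt, ← (hB m n hm).1]
  refine setLIntegral_congr_fun measurableSet_Ioc fun r hr => ?_
  rw [← ENNReal.ofReal_mul (by have := hr.1; positivity)]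

lemma beta1 (hB : S_beta) (hm : 1 ≤ m) (c : ℝ) (hc : 0 ≤ c) :
    ∫⁻ r in Ioc (0 : ℝ) 1, ENNReal.ofReal (m * r ^ (m - 1)) *
      (ENNReal.ofReal ((1 - r) ^ n) * ENNReal.ofReal (c * -Real.log r)) =
      ENNReal.ofReal (bt n m * (c * (HH (m + n) - HH (m - 1)))) := by
  rw [show bt n m * (c * (HH (m + n) - HH (m - 1))) =
    c * (bt n m * (HH (m + n) - HH (m - 1))) by ring, ENNReal.ofReal_mul hc, bt,
    ← (hB m n hm).2.1, ← lintegral_const_mul' _ _ ENNReal.ofReal_ne_top]
  refine setLIntegral_congr_fun measurableSet_Ioc fun r hr => ?_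
  have h0 := hr.1
  have h1 : 0 ≤ 1 - r := by linarith [hr.2]
  have h2 : 0 ≤ (1 - r) ^ n := pow_nonneg h1 n
  rw [← ENNReal.ofReal_mul h2, ← ENNReal.ofReal_mul (by positivity), ← ENNReal.ofReal_mul hc]
  congr 1
  ring

lemma beta2 (hB : S_beta) (hm : 1 ≤ m) (c : ℝ) (hc : 0 ≤ c) :
    ∫⁻ r in Ioc (0 : ℝ) 1, ENNReal.ofReal (m * r ^ (m - 1)) *
      (ENNReal.ofReal ((1 - r) ^ n) * ENNReal.ofReal (c * -Real.log (1 - r))) =
      ENNReal.ofReal (bt n m * (c * (HH (m + n) - HH n))) := by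
  rw [show bt n m * (c * (HH (m + n) - HH n)) =
    c * (bt n m * (HH (m + n) - HH n)) by ring, ENNReal.ofReal_mul hc, bt,
    ← (hB m n hm).2.2, ← lintegral_const_mul' _ _ ENNReal.ofReal_ne_top]
  refine setLIntegral_congr_fun measurableSet_Ioc fun r hr => ?_
  have h0 := hr.1
  have h1 : 0 ≤ 1 - r := by linarith [hr.2]
  have h2 : 0 ≤ (1 - r) ^ n := pow_nonneg h1 n
  rw [← ENNReal.ofReal_mul h2, ← ENNReal.ofReal_mul (by positivity), ← ENNReal.ofReal_mul hc]
  congr 1
  ring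

lemma int0 [Fintype V'] (hR : S_rad) (hB : S_beta) {G : Fr m U' V'} (hG : Good G) (n : ℕ) :
    ∫⁻ y in G.pol, ENNReal.ofReal ((1 - G.h y) ^ n) = ENNReal.ofReal (bt n m) * volume G.pol := by
  have h := rad_pol hR hG (fun _ => 1) measurable_const (fun _ _ _ => rfl)
    (fun r => ENNReal.ofReal ((1 - r) ^ n)) (by fun_prop)
  simp only [mul_one] at h
  rw [h, beta0 hB hG.n_pos]
  simp

lemma int2 [Fintype V'] (hR : S_rad) (hB : S_beta) {G : Fr m U' V'} (hG : Good G) (n : ℕ)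
    (c : ℝ) (hc : 0 ≤ c) :
    ∫⁻ y in G.pol, ENNReal.ofReal ((1 - G.h y) ^ n) *
      ENNReal.ofReal (c * -Real.log (1 - G.h y)) =
        ENNReal.ofReal (bt n m * (c * (HH (m + n) - HH n))) * volume G.pol := by
  have h := rad_pol hR hG (fun _ => 1) measurable_const (fun _ _ _ => rfl)
    (fun r => ENNReal.ofReal ((1 - r) ^ n) * ENNReal.ofReal (c * -Real.log (1 - r)))
    (by fun_prop)
  simp only [mul_one] at h
  rw [h, beta2 hB hG.n_pos c hc]
  simp

/-- the homogeneous part of `LQ` -/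
def LH (G : Fr m U' V') (LQ' : (Fin m → ℝ) → ℝ) (y : Fin m → ℝ) : ℝ≥0∞ :=
  ENNReal.ofReal (LQ' ((G.h y)⁻¹ • y))

lemma LH_meas [Fintype V'] {G : Fr m U' V'} (hG : Good G) {LQ' : (Fin m → ℝ) → ℝ}
    (hL : Measurable LQ') : Measurable (LH G LQ') :=
  (hL.comp ((h_meas hG).inv.smul measurable_id)).ennreal_ofReal

lemma LH_smul {G : Fr m U' V'} (hG : Good G) (LQ' : (Fin m → ℝ) → ℝ) (t : ℝ) (ht : 0 < t)
    (y : Fin m → ℝ) : LH G LQ' (t • y) = LH G LQ' y := by
  unfold LH
  rw [h_smul hG t ht, smul_smul, mul_inv, mul_comm t⁻¹, mul_assoc, inv_mul_cancel₀ ht.ne', mul_one]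

lemma rad_LQ [Fintype U'] [Fintype V'] (hR : S_rad) {G : Fr m U' V'} (hG : Good G)
    {mu' : (Fin m → ℝ) → U' → ℝ} {LQ' : (Fin m → ℝ) → ℝ} {Y' : Set (Fin m → ℝ)} {qa' : ℝ}
    (hQ : QC G mu' LQ' Y' qa') (Φ : ℝ → ℝ≥0∞) (hΦ : Measurable Φ) :
    ∫⁻ y in G.pol, Φ (G.h y) * ENNReal.ofReal (LQ' y) =
      (∫⁻ r in Ioc (0 : ℝ) 1, ENNReal.ofReal (m * r ^ (m - 1)) * Φ r) *
        (∫⁻ y in G.pol, LH G LQ' y) +
      (∫⁻ r in Ioc (0 : ℝ) 1, ENNReal.ofReal (m * r ^ (m - 1)) *
        (Φ r * ENNReal.ofReal (m * -Real.log r))) * volume G.pol := by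
  have hm := hG.n_pos
  have hne : Nonempty (Fin m) := ⟨⟨0, hm⟩⟩
  have h1 := rad_pol hR hG (LH G LQ') (LH_meas hG hQ.meas) (LH_smul hG LQ') Φ hΦ
  have h2 := rad_pol hR hG (fun _ => 1) measurable_const (fun _ _ _ => rfl)
    (fun r => Φ r * ENNReal.ofReal (m * -Real.log r)) (by fun_prop)
  simp only [mul_one] at h2
  rw [← h1]
  have h3 : volume G.pol = ∫⁻ _ in G.pol, 1 := by simp
  rw [h3, ← h2, ← lintegral_add_left]
  · have hae : ∀ᵐ y ∂(volume.restrict G.pol), y ∈ Y' ∧ y ≠ 0 := by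
      refine ae_restrict_of_ae ?_
      filter_upwards [show ∀ᵐ y, y ∈ Y' from by
        rw [ae_iff]; exact hQ.nullY, show ∀ᵐ y : Fin m → ℝ, y ≠ 0 from by
        rw [ae_iff]; simp] with y h1 h2
      exact ⟨h1, h2⟩
    refine lintegral_congr_ae ?_
    filter_upwards [hae, ae_restrict_mem (pol_meas hG)] with y hy hyp
    have ht : 0 < G.h y := h_pos hG y hy.2
    have ht1 : G.h y ≤ 1 := hyp
    have hyY : (G.h y)⁻¹ • y ∈ Y' := hQ.smulY _ (inv_pos.2 ht) y hy.1
    have h4 : LQ' y = LQ' ((G.h y)⁻¹ • y) + m * -Real.log (G.h y) := by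
      have := hQ.smul _ ht _ hyY
      rw [smul_smul, mul_inv_cancel₀ ht.ne', one_smul] at this
      linarith
    have h5 : 0 ≤ LQ' ((G.h y)⁻¹ • y) := by
      refine hQ.nonneg _ hyY ?_
      rw [h_smul hG _ (inv_pos.2 ht), inv_mul_cancel₀ ht.ne']
    have h6 : 0 ≤ m * -Real.log (G.h y) :=
      mul_nonneg (Nat.cast_nonneg _) (neg_nonneg.2 (Real.log_nonpos ht.le ht1))
    show Φ (G.h y) * ENNReal.ofReal (LQ' y) = Φ (G.h y) * LH G LQ' y +
      Φ (G.h y) * ENNReal.ofReal (m * -Real.log (G.h y))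
    rw [← mul_add, LH, ← ENNReal.ofReal_add h5 h6, ← h4]
  · exact (hΦ.comp (h_meas hG)).mul (LH_meas hG hQ.meas)

lemma LH_mean [Fintype U'] [Fintype V'] (hR : S_rad) (hB : S_beta) {G : Fr m U' V'}
    (hG : Good G)
    {mu' : (Fin m → ℝ) → U' → ℝ} {LQ' : (Fin m → ℝ) → ℝ} {Y' : Set (Fin m → ℝ)} {qa' : ℝ}
    (hQ : QC G mu' LQ' Y' qa') : 1 ≤ qa' ∧
    ∫⁻ y in G.pol, LH G LQ' y ≤ ENNReal.ofReal (qa' - 1) * volume G.pol := by
  have hm := hG.n_pos
  have h := rad_LQ hR hG hQ (fun _ => 1) measurable_const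
  simp only [one_mul, mul_one] at h
  have hb0 := beta0 (n := 0) hB (show 1 ≤ m from hm)
  have hb1 := beta1 (n := 0) hB (show 1 ≤ m from hm) m (Nat.cast_nonneg _)
  simp only [pow_zero, ENNReal.ofReal_one, mul_one, one_mul] at hb0 hb1
  have hbt : bt 0 m = 1 := by
    unfold bt
    simp only [Nat.factorial_zero, Nat.cast_one, mul_one, add_zero]
    exact div_self (by positivity)
  have hHH : (m : ℝ) * (HH (m + 0) - HH (m - 1)) = 1 := by
    obtain ⟨k, rfl⟩ := Nat.exists_eq_succ_of_ne_zero hm.ne'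
    unfold HH
    rw [add_zero, Nat.succ_sub_one, Finset.sum_range_succ]
    push_cast
    have : (k : ℝ) + 1 ≠ 0 := by positivity
    field_simp
    ring
  rw [hbt, ENNReal.ofReal_one] at hb0
  rw [hbt, hHH, mul_one, ENNReal.ofReal_one] at hb1
  rw [hb0, hb1, one_mul, one_mul] at h
  have hle := hQ.mean
  rw [h] at hle
  obtain ⟨hv0, hvt⟩ := vol_pol_ne hG
  have h1 : 1 ≤ qa' := by
    have h2 : volume G.pol ≤ ENNReal.ofReal qa' * volume G.pol := le_trans le_add_self hle
    have h3 : 1 * volume G.pol ≤ ENNReal.ofReal qa' * volume G.pol := by rwa [one_mul]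
    have h4 := (ENNReal.mul_le_mul_iff_left hv0 hvt).1 h3
    by_contra h5
    exact absurd h4 (not_le.2 (by
      rw [← ENNReal.ofReal_one]
      exact (ENNReal.ofReal_lt_ofReal_iff one_pos).2 (not_le.1 h5)))
  refine ⟨h1, ?_⟩
  have h2 : ENNReal.ofReal qa' = ENNReal.ofReal (qa' - 1) + 1 := by
    rw [← ENNReal.ofReal_one, ← ENNReal.ofReal_add (by linarith) zero_le_one, sub_add_cancel]
  rw [h2, add_mul, one_mul] at hle
  exact (ENNReal.add_le_add_iff_right hvt).1 hle

lemma int1 [Fintype U'] [Fintype V'] (hR : S_rad) (hB : S_beta) {G : Fr m U' V'}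
    (hG : Good G)
    {mu' : (Fin m → ℝ) → U' → ℝ} {LQ' : (Fin m → ℝ) → ℝ} {Y' : Set (Fin m → ℝ)} {qa' : ℝ}
    (hQ : QC G mu' LQ' Y' qa') (n : ℕ) :
    ∫⁻ y in G.pol, ENNReal.ofReal ((1 - G.h y) ^ n) * ENNReal.ofReal (LQ' y) ≤
      ENNReal.ofReal (bt n m * (qa' - 1 + m * (HH (m + n) - HH (m - 1)))) * volume G.pol := by
  have hm := hG.n_pos
  obtain ⟨h1, h2⟩ := LH_mean hR hB hG hQ
  have h3 : 0 ≤ HH (m + n) - HH (m - 1) := sub_nonneg.2 (HH_mono (by omega))
  have hb := bt_pos n m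
  rw [rad_LQ hR hG hQ (fun r => ENNReal.ofReal ((1 - r) ^ n)) (by fun_prop),
    beta0 hB hm, beta1 hB hm m (Nat.cast_nonneg _), mul_add,
    ENNReal.ofReal_add (mul_nonneg hb.le (by linarith))
      (mul_nonneg hb.le (mul_nonneg (Nat.cast_nonneg _) h3)), add_mul,
    ENNReal.ofReal_mul hb.le (q := qa' - 1), mul_assoc]
  gcongr

/-! ### the base certificate -/

lemma LZA_meas [Fintype V'] {G : Fr m U' V'} (hG : Good G) {LQ' : (Fin m → ℝ) → ℝ}
    (hL : Measurable LQ') {LZ : (Fin n → ℝ) → ℝ} (hZ : Measurable LZ) :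
    Measurable (LZA G LQ' LZ) := by
  have h1 : Measurable fun b : Fin (n + m) → ℝ => 1 - G.h (p2 b) :=
    measurable_const.sub ((h_meas hG).comp p2_meas)
  exact ((hL.comp p2_meas).sub ((Real.measurable_log.comp h1).const_mul _)).add
    (hZ.comp (h1.inv.smul p1_meas))

/-- the mean of the base certificate -/
def cA (n m : ℕ) (qa' g : ℝ) : ℝ :=
  qa' - 1 + m * (HH (n + m) - HH (m - 1)) + (n + 1) * (HH (n + m) - HH n) + g

lemma LZA_mean [Fintype U] [Fintype V] [Fintype U'] [Fintype V'] (hA : S_app) (hR : S_rad)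
    (hB : S_beta)
    {F : Fr n U V} {G : Fr m U' V'} (hF : Good F) (hG : Good G)
    (hvol : volume (F.prod G).pol = ENNReal.ofReal (n.factorial * m.factorial / (n + m).factorial)
      * (volume F.pol * volume G.pol))
    {mu' : (Fin m → ℝ) → U' → ℝ} {LQ' : (Fin m → ℝ) → ℝ} {Y' : Set (Fin m → ℝ)} {qa' : ℝ}
    (hQ : QC G mu' LQ' Y' qa') {lam : (Fin n → ℝ) → U → ℝ} {LZ : (Fin n → ℝ) → ℝ}
    {Z : Set (Fin n → ℝ)} {g : ℝ} (hZ : ZC F lam LZ Z g) :
    0 ≤ cA n m qa' g ∧ ∫⁻ b in (F.prod G).pol, ENNReal.ofReal (LZA G LQ' LZ b) ≤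
      ENNReal.ofReal (cA n m qa' g) * volume (F.prod G).pol := by
  obtain ⟨hq1, -⟩ := LH_mean hR hB hG hQ
  have hb := bt_pos n m
  have h3 : 0 ≤ HH (m + n) - HH (m - 1) := sub_nonneg.2 (HH_mono (by omega))
  have h4 : 0 ≤ HH (m + n) - HH n := sub_nonneg.2 (HH_mono (by omega))
  have hx1 : 0 ≤ qa' - 1 + m * (HH (m + n) - HH (m - 1)) := by
    have := mul_nonneg (Nat.cast_nonneg (α := ℝ) m) h3
    linarith
  have hx2 : 0 ≤ ((n : ℝ) + 1) * (HH (m + n) - HH n) := mul_nonneg (by positivity) h4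
  have hcA : cA n m qa' g = (qa' - 1 + m * (HH (m + n) - HH (m - 1))) +
      ((n : ℝ) + 1) * (HH (m + n) - HH n) + g := by
    rw [cA, add_comm n m]
  refine ⟨by rw [hcA]; have := hZ.g_nonneg; linarith, ?_⟩
  have hv : volume (F.prod G).pol = ENNReal.ofReal (bt n m) * (volume F.pol * volume G.pol) := by
    rw [hvol, bt, add_comm n m, mul_comm (n.factorial : ℝ)]
  have hle : ∀ b : Fin (n + m) → ℝ, ENNReal.ofReal (LZA G LQ' LZ b) ≤
      ENNReal.ofReal (LQ' (p2 b)) + ENNReal.ofReal (((n : ℝ) + 1) * -Real.log (1 - G.h (p2 b))) +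
        ENNReal.ofReal (LZ ((1 - G.h (p2 b))⁻¹ • p1 b)) := by
    intro b
    rw [LZA, sub_eq_add_neg, ← mul_neg]
    exact ENNReal.ofReal_add_le.trans (add_le_add_left ENNReal.ofReal_add_le _)
  have hm1 : Measurable fun b : Fin (n + m) → ℝ => 1 - G.h (p2 b) :=
    measurable_const.sub ((h_meas hG).comp p2_meas)
  have hm2 : Measurable fun b : Fin (n + m) → ℝ => ENNReal.ofReal (LQ' (p2 b)) :=
    (hQ.meas.comp p2_meas).ennreal_ofReal
  have hm3 : Measurable fun b : Fin (n + m) → ℝ =>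
      ENNReal.ofReal (((n : ℝ) + 1) * -Real.log (1 - G.h (p2 b))) :=
    (((Real.measurable_log.comp hm1).neg).const_mul _).ennreal_ofReal
  have hm4 : Measurable fun y : Fin m → ℝ =>
      ENNReal.ofReal (((n : ℝ) + 1) * -Real.log (1 - G.h y)) :=
    (((Real.measurable_log.comp (measurable_const.sub (h_meas hG))).neg).const_mul _).ennreal_ofReal
  calc ∫⁻ b in (F.prod G).pol, ENNReal.ofReal (LZA G LQ' LZ b)
      ≤ ∫⁻ b in (F.prod G).pol, (ENNReal.ofReal (LQ' (p2 b)) +
          ENNReal.ofReal (((n : ℝ) + 1) * -Real.log (1 - G.h (p2 b))) +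
          ENNReal.ofReal (LZ ((1 - G.h (p2 b))⁻¹ • p1 b))) := lintegral_mono hle
    _ = (∫⁻ b in (F.prod G).pol, ENNReal.ofReal (LQ' (p2 b))) +
          (∫⁻ b in (F.prod G).pol, ENNReal.ofReal (((n : ℝ) + 1) * -Real.log (1 - G.h (p2 b)))) +
          ∫⁻ b in (F.prod G).pol, ENNReal.ofReal (LZ ((1 - G.h (p2 b))⁻¹ • p1 b)) := by
        rw [← lintegral_add_left hm2, ← lintegral_add_left]
        exact hm2.add hm3
    _ ≤ volume F.pol * (ENNReal.ofReal (bt n m * (qa' - 1 + m * (HH (m + n) - HH (m - 1)))) *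
          volume G.pol) +
        volume F.pol * (ENNReal.ofReal (bt n m * (((n : ℝ) + 1) * (HH (m + n) - HH n))) *
          volume G.pol) +
        (ENNReal.ofReal g * volume F.pol) * (ENNReal.ofReal (bt n m) * volume G.pol) := by
        refine add_le_add (add_le_add ?_ ?_) ?_
        · rw [int_snd hA hF hG (fun y => ENNReal.ofReal (LQ' y)) hQ.meas.ennreal_ofReal]
          exact mul_le_mul_right (int1 hR hB hG hQ n) _
        · rw [int_snd hA hF hG (fun y => ENNReal.ofReal (((n : ℝ) + 1) * -Real.log (1 - G.h y)))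
            hm4, int2 hR hB hG n _ (by positivity)]
        · rw [int_scaled hA hF hG (fun x => ENNReal.ofReal (LZ x)) hZ.meas.ennreal_ofReal,
            int0 hR hB hG n]
          exact mul_le_mul_left hZ.mean _
    _ = ENNReal.ofReal (cA n m qa' g) * volume (F.prod G).pol := by
        rw [hv, hcA, ENNReal.ofReal_add (add_nonneg hx1 hx2) hZ.g_nonneg,
          ENNReal.ofReal_add hx1 hx2, ENNReal.ofReal_mul hb.le, ENNReal.ofReal_mul hb.le]
        ring

/-! ### exchanging the blocks -/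

/-- exchange of the blocks -/
def sw (b : Fin (n + m) → ℝ) : Fin (m + n) → ℝ := Fin.append (p2 b) (p1 b)

@[simp] lemma p1_sw (b : Fin (n + m) → ℝ) : p1 (sw b) = p2 b := p1_append _ _

@[simp] lemma p2_sw (b : Fin (n + m) → ℝ) : p2 (sw b) = p1 b := p2_append _ _

lemma sw_meas : Measurable (sw : (Fin (n + m) → ℝ) → Fin (m + n) → ℝ) :=
  append_meas.comp (p2_meas.prodMk p1_meas)

lemma lint_sw (hA : S_app) (f : (Fin (m + n) → ℝ) → ℝ≥0∞) (hf : Measurable f) :
    ∫⁻ b : Fin (n + m) → ℝ, f (sw b) = ∫⁻ b, f b := by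
  have hm : Measurable fun b : Fin (n + m) → ℝ => f (sw b) := hf.comp sw_meas
  rw [lint_prod_swap hA _ hm, lint_prod hA _ hf]
  simp [sw]

lemma sw_pol (F : Fr n U V) (G : Fr m U' V') (b : Fin (n + m) → ℝ) :
    sw b ∈ (G.prod F).pol ↔ b ∈ (F.prod G).pol := by
  rw [prod_pol, prod_pol, p1_sw, p2_sw, add_comm]

lemma vol_sw [Fintype V] [Fintype V'] (hA : S_app) {F : Fr n U V} {G : Fr m U' V'}
    (hF : Good F) (hG : Good G) (f : (Fin (m + n) → ℝ) → ℝ≥0∞) (hf : Measurable f) :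
    ∫⁻ b in (F.prod G).pol, f (sw b) = ∫⁻ b in (G.prod F).pol, f b := by
  rw [← lintegral_indicator (prod_pol_meas hF hG), ← lintegral_indicator (prod_pol_meas hG hF),
    ← lint_sw hA _ (hf.indicator (prod_pol_meas hG hF))]
  congr 1
  funext b
  by_cases hb : b ∈ (F.prod G).pol
  · rw [Set.indicator_of_mem hb, Set.indicator_of_mem ((sw_pol F G b).2 hb)]
  · rw [Set.indicator_of_notMem hb, Set.indicator_of_notMem (fun h => hb ((sw_pol F G b).1 h))]

lemma LZB_eq (F : Fr n U V) (LQ : (Fin n → ℝ) → ℝ) (LZ' : (Fin m → ℝ) → ℝ)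
    (b : Fin (n + m) → ℝ) : LZB F LQ LZ' b = LZA F LQ LZ' (sw b) := by
  rw [LZA, LZB, p1_sw, p2_sw]

/-- the integrand of the certificate of a product -/
def ig (F : Fr n U V) (G : Fr m U' V') (b : Fin (n + m) → ℝ) (τ : U ⊕ U' → ℝ)
    (z : Fin (n + m) → ℝ) : ℝ≥0∞ :=
  ENNReal.ofReal (Real.exp (z ⬝ᵥ b - ⨆ a, ((F.prod G).u a ⬝ᵥ z - τ a)))

lemma ig_meas [Fintype U] [Fintype U'] (F : Fr n U V) (G : Fr m U' V') (b : Fin (n + m) → ℝ)
    (τ : U ⊕ U' → ℝ) : Measurable (ig F G b τ) := by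
  refine (Real.measurable_exp.comp (Measurable.sub ?_ ?_)).ennreal_ofReal
  · exact (continuous_id.dotProduct continuous_const).measurable
  · refine Measurable.iSup fun a => ?_
    exact ((continuous_const.dotProduct continuous_id).sub continuous_const).measurable

lemma ig_sw (F : Fr n U V) (G : Fr m U' V') (b : Fin (n + m) → ℝ) (τ : U ⊕ U' → ℝ)
    (z : Fin (n + m) → ℝ) :
    ig G F (sw b) (fun a => τ a.swap) (sw z) = ig F G b τ z := by
  unfold ig
  have h1 : sw z ⬝ᵥ sw b = z ⬝ᵥ b := by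
    conv_rhs => rw [← append_p z]
    rw [dot_append, sw, dot_append, p1_sw, p2_sw, add_comm]
  have h2 : (⨆ a, ((G.prod F).u a ⬝ᵥ sw z - τ a.swap)) = ⨆ a, ((F.prod G).u a ⬝ᵥ z - τ a) := by
    refine (Equiv.sumComm U' U).iSup_congr fun a => ?_
    rcases a with a | a
    · simp only [Equiv.sumComm_apply, Sum.swap_inl, Fr.prod, Sum.elim_inl, Sum.elim_inr]
      rw [dot_append, dot_append, p1_sw, p2_sw]
      simp
    · simp only [Equiv.sumComm_apply, Sum.swap_inr, Fr.prod, Sum.elim_inl, Sum.elim_inr]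
      rw [dot_append, dot_append, p1_sw, p2_sw]
      simp
  rw [h1, h2]

lemma le_exp_conv {X : ℝ≥0∞} {A B s t : ℝ} (hs : 0 ≤ s) (ht : 0 ≤ t) (hst : s + t = 1)
    (h1 : X ≤ ENNReal.ofReal (Real.exp A)) (h2 : X ≤ ENNReal.ofReal (Real.exp B)) :
    X ≤ ENNReal.ofReal (Real.exp (s * A + t * B)) := by
  rcases le_total A B with h | h
  · refine h1.trans (ENNReal.ofReal_le_ofReal (Real.exp_le_exp.2 ?_))
    have : A = s * A + t * A := by rw [← add_mul, hst, one_mul]
    have := mul_le_mul_of_nonneg_left h ht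
    linarith
  · refine h2.trans (ENNReal.ofReal_le_ofReal (Real.exp_le_exp.2 ?_))
    have : B = s * B + t * B := by rw [← add_mul, hst, one_mul]
    have := mul_le_mul_of_nonneg_left h hs
    linarith

/-! ### the exceptional set -/

/-- the regular points -/
def Wp (F : Fr n U V) (G : Fr m U' V') (Y : Set (Fin n → ℝ)) (Y' : Set (Fin m → ℝ))
    (Z : Set (Fin n → ℝ)) (Z' : Set (Fin m → ℝ)) : Set (Fin (n + m) → ℝ) :=
  {b | F.h (p1 b) + G.h (p2 b) < 1 ∧ p1 b ∈ Y ∧ p2 b ∈ Y' ∧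
    (1 - G.h (p2 b))⁻¹ • p1 b ∈ Z ∧ (1 - F.h (p1 b))⁻¹ • p2 b ∈ Z'}

lemma Wp_meas [Fintype V] [Fintype V'] {F : Fr n U V} {G : Fr m U' V'} (hF : Good F)
    (hG : Good G) {Y : Set (Fin n → ℝ)} {Y' : Set (Fin m → ℝ)} {Z : Set (Fin n → ℝ)}
    {Z' : Set (Fin m → ℝ)} (hY : MeasurableSet Y) (hY' : MeasurableSet Y')
    (hZ : MeasurableSet Z) (hZ' : MeasurableSet Z') : MeasurableSet (Wp F G Y Y' Z Z') := by
  have h1 : Measurable fun b : Fin (n + m) → ℝ => 1 - G.h (p2 b) :=
    measurable_const.sub ((h_meas hG).comp p2_meas)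
  have h2 : Measurable fun b : Fin (n + m) → ℝ => 1 - F.h (p1 b) :=
    measurable_const.sub ((h_meas hF).comp p1_meas)
  refine (measurableSet_lt (((h_meas hF).comp p1_meas).add ((h_meas hG).comp p2_meas))
    measurable_const).inter ((p1_meas hY).inter ((p2_meas hY').inter
      (((h1.inv.smul p1_meas) hZ).inter ((h2.inv.smul p2_meas) hZ'))))

lemma null_of_fst (hA : S_app) {A : Set (Fin (n + m) → ℝ)} (hAm : MeasurableSet A)
    (h : ∀ᵐ x : Fin n → ℝ, volume {y : Fin m → ℝ | Fin.append x y ∈ A} = 0) : volume A = 0 := by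
  rw [← lintegral_indicator_one hAm, lint_prod hA _ (measurable_one.indicator hAm)]
  rw [lintegral_eq_zero_iff]
  · filter_upwards [h] with x hx
    have h1 : (fun y => A.indicator (1 : (Fin (n + m) → ℝ) → ℝ≥0∞) (Fin.append x y)) =
        {y : Fin m → ℝ | Fin.append x y ∈ A}.indicator 1 := by
      funext y
      by_cases hy : Fin.append x y ∈ A
      · rw [Set.indicator_of_mem hy, Set.indicator_of_mem (show y ∈ {y : Fin m → ℝ | Fin.append x y ∈ A} from hy)]
        rfl
      · rw [Set.indicator_of_notMem hy, Set.indicator_of_notMem (show y ∉ {y : Fin m → ℝ | Fin.append x y ∈ A} from hy)]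
    rw [h1, lintegral_indicator_one]
    · exact hx
    · exact hAm.preimage (append_meas.comp measurable_prodMk_left)
  · exact ((measurable_one.indicator hAm).comp append_meas).lintegral_prod_right'

lemma null_of_snd (hA : S_app) {A : Set (Fin (n + m) → ℝ)} (hAm : MeasurableSet A)
    (h : ∀ᵐ y : Fin m → ℝ, volume {x : Fin n → ℝ | Fin.append x y ∈ A} = 0) : volume A = 0 := by
  rw [← lintegral_indicator_one hAm, lint_prod_swap hA _ (measurable_one.indicator hAm)]
  rw [lintegral_eq_zero_iff]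
  · filter_upwards [h] with y hy
    have h1 : (fun x => A.indicator (1 : (Fin (n + m) → ℝ) → ℝ≥0∞) (Fin.append x y)) =
        {x : Fin n → ℝ | Fin.append x y ∈ A}.indicator 1 := by
      funext x
      by_cases hx : Fin.append x y ∈ A
      · rw [Set.indicator_of_mem hx, Set.indicator_of_mem (show x ∈ {x : Fin n → ℝ | Fin.append x y ∈ A} from hx)]
        rfl
      · rw [Set.indicator_of_notMem hx, Set.indicator_of_notMem (show x ∉ {x : Fin n → ℝ | Fin.append x y ∈ A} from hx)]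
    rw [h1, lintegral_indicator_one]
    · exact hy
    · exact hAm.preimage (append_meas.comp measurable_prodMk_right)
  · exact ((measurable_one.indicator hAm).comp append_meas).lintegral_prod_left'

lemma scaled_null (F : Fr n U V) (hF : Good F) {Z : Set (Fin n → ℝ)}
    (hZ : volume (F.pol \ Z) = 0) (s : ℝ) :
    volume {x : Fin n → ℝ | F.h x + (1 - s) < 1 ∧ s⁻¹ • x ∉ Z} = 0 := by
  rcases le_or_gt s 0 with hs | hs
  · have : {x : Fin n → ℝ | F.h x + (1 - s) < 1 ∧ s⁻¹ • x ∉ Z} = ∅ := by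
      ext x
      simp only [Set.mem_ofPred_eq, mem_empty_iff_false, iff_false, not_and]
      intro h
      have := h_nonneg hF x
      linarith
    rw [this, measure_empty]
  · have h1 := Measure.addHaar_preimage_smul (volume : Measure (Fin n → ℝ)) (inv_ne_zero hs.ne')
      (F.pol \ Z)
    rw [hZ, mul_zero] at h1
    refine measure_mono_null ?_ h1
    rintro x ⟨hx1, hx2⟩
    refine ⟨?_, hx2⟩
    show F.h (s⁻¹ • x) ≤ 1
    rw [h_smul hF _ (inv_pos.2 hs), inv_mul_le_iff₀ hs, mul_one]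
    linarith

lemma Wp_null [Fintype V] [Fintype V'] (hA : S_app) (hR : S_rad) {F : Fr n U V}
    {G : Fr m U' V'} (hF : Good F) (hG : Good G) {Y : Set (Fin n → ℝ)} {Y' : Set (Fin m → ℝ)}
    {Z : Set (Fin n → ℝ)} {Z' : Set (Fin m → ℝ)} (hY : MeasurableSet Y) (hY' : MeasurableSet Y')
    (hZ : MeasurableSet Z) (hZ' : MeasurableSet Z') (nY : volume Yᶜ = 0) (nY' : volume Y'ᶜ = 0)
    (nZ : volume (F.pol \ Z) = 0) (nZ' : volume (G.pol \ Z') = 0) :
    volume ((F.prod G).pol \ Wp F G Y Y' Z Z') = 0 := by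
  have h1 : Measurable fun b : Fin (n + m) → ℝ => 1 - G.h (p2 b) :=
    measurable_const.sub ((h_meas hG).comp p2_meas)
  have h2 : Measurable fun b : Fin (n + m) → ℝ => 1 - F.h (p1 b) :=
    measurable_const.sub ((h_meas hF).comp p1_meas)
  have h12 : Measurable fun b : Fin (n + m) → ℝ => F.h (p1 b) + G.h (p2 b) :=
    ((h_meas hF).comp p1_meas).add ((h_meas hG).comp p2_meas)
  have a1 : volume {b : Fin (n + m) → ℝ | F.h (p1 b) + G.h (p2 b) = 1} = 0 := by
    refine null_of_fst hA (measurableSet_eq_fun h12 measurable_const)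
      (Filter.Eventually.of_forall fun x => ?_)
    have := sphere_null hR hG (1 - F.h x)
    refine measure_mono_null (fun y hy => ?_) this
    simp only [Set.mem_ofPred_eq, p1_append, p2_append] at hy ⊢
    linarith
  have a2 : volume {b : Fin (n + m) → ℝ | p1 b ∈ Yᶜ} = 0 := by
    refine null_of_fst hA (p1_meas hY.compl) ?_
    have : ∀ᵐ x, x ∈ Y := by
      rw [ae_iff]
      exact nY
    filter_upwards [this] with x hx
    refine measure_mono_null (t := ∅) (fun y hy => ?_) measure_empty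
    simp only [Set.mem_ofPred_eq, p1_append] at hy
    exact absurd hx hy
  have a3 : volume {b : Fin (n + m) → ℝ | p2 b ∈ Y'ᶜ} = 0 := by
    refine null_of_snd hA (p2_meas hY'.compl) ?_
    have : ∀ᵐ y, y ∈ Y' := by
      rw [ae_iff]
      exact nY'
    filter_upwards [this] with y hy
    refine measure_mono_null (t := ∅) (fun x hx => ?_) measure_empty
    simp only [Set.mem_ofPred_eq, p2_append] at hx
    exact absurd hy hx
  have a4 : volume {b : Fin (n + m) → ℝ | F.h (p1 b) + G.h (p2 b) < 1 ∧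
      (1 - G.h (p2 b))⁻¹ • p1 b ∈ Zᶜ} = 0 := by
    refine null_of_snd hA ((measurableSet_lt h12 measurable_const).inter
      ((h1.inv.smul p1_meas) hZ.compl)) (Filter.Eventually.of_forall fun y => ?_)
    refine measure_mono_null (fun x hx => ?_) (scaled_null F hF nZ (1 - G.h y))
    simp only [Set.mem_ofPred_eq, p1_append, p2_append] at hx ⊢
    exact ⟨by linarith [hx.1], hx.2⟩
  have a5 : volume {b : Fin (n + m) → ℝ | F.h (p1 b) + G.h (p2 b) < 1 ∧
      (1 - F.h (p1 b))⁻¹ • p2 b ∈ Z'ᶜ} = 0 := by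
    refine null_of_fst hA ((measurableSet_lt h12 measurable_const).inter
      ((h2.inv.smul p2_meas) hZ'.compl)) (Filter.Eventually.of_forall fun x => ?_)
    refine measure_mono_null (fun y hy => ?_) (scaled_null G hG nZ' (1 - F.h x))
    simp only [Set.mem_ofPred_eq, p1_append, p2_append] at hy ⊢
    exact ⟨by linarith [hy.1], hy.2⟩
  refine measure_mono_null ?_ (measure_union_null a1 (measure_union_null a2
    (measure_union_null a3 (measure_union_null a4 a5))))
  rintro b ⟨hb, hbW⟩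
  rw [prod_pol] at hb
  by_contra hcon
  simp only [mem_union, Set.mem_ofPred_eq, mem_compl_iff, not_or, not_and, not_not] at hcon
  obtain ⟨c1, c2, c3, c4, c5⟩ := hcon
  have hlt : F.h (p1 b) + G.h (p2 b) < 1 := lt_of_le_of_ne hb c1
  exact hbW ⟨hlt, c2, c3, c4 hlt, c5 hlt⟩

/-! ### the certificate of a product -/

theorem zprod (hA : S_app) (hR : S_rad) (hB : S_beta) (hP : S_gprod) (hZb : S_zbase) :
    S_zprod := by
  intro n m U V U' V' _ _ _ _ F G α α' mu mu' LQ LQ' Y Y' qa qa' lam lam' LZ LZ' Z Z' g g'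
    hF hG hK hK' hQ hQ' _ _ hZ hZ'
  have hn : (0 : ℝ) < n := by exact_mod_cast hF.n_pos
  have hm : (0 : ℝ) < m := by exact_mod_cast hG.n_pos
  have hs : 0 ≤ (n : ℝ) / (n + m) := by positivity
  have ht : 0 ≤ (m : ℝ) / (n + m) := by positivity
  have hst : (n : ℝ) / (n + m) + (m : ℝ) / (n + m) = 1 := by
    field_simp
  have hvFG := (hP n m U V U' V' F G hF hG).2.2
  have hvGF := (hP m n U' V' U V G F hG hF).2.2
  obtain ⟨hcA, hmA⟩ := LZA_mean hA hR hB hF hG hvFG hQ' hZ
  obtain ⟨hcB, hmB⟩ := LZA_mean hA hR hB hG hF hvGF hQ hZ'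
  have hvol : volume (G.prod F).pol = volume (F.prod G).pol := by
    rw [hvFG, hvGF, add_comm n m, mul_comm (n.factorial : ℝ), mul_comm (volume F.pol)]
  have hconst : (n : ℝ) / (n + m) * (qa' - 1 + m * (HH (n + m) - HH (m - 1)) +
      (n + 1) * (HH (n + m) - HH n) + g) + (m : ℝ) / (n + m) *
      (qa - 1 + n * (HH (n + m) - HH (n - 1)) + (m + 1) * (HH (n + m) - HH m) + g') =
      (n : ℝ) / (n + m) * cA n m qa' g + (m : ℝ) / (n + m) * cA m n qa g' := by
    rw [cA, cA, add_comm m n]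
  have hmeasA : Measurable (LZA (n := n) G LQ' LZ) := LZA_meas hG hQ'.meas hZ.meas
  have hmeasB : Measurable (LZA (n := m) F LQ LZ') := LZA_meas hF hQ.meas hZ'.meas
  have hmeasB' : Measurable (LZB (m := m) F LQ LZ') := by
    have : LZB (m := m) F LQ LZ' = fun b => LZA F LQ LZ' (sw b) := funext fun b => LZB_eq F LQ LZ' b
    rw [this]
    exact hmeasB.comp sw_meas
  have key : ∀ b ∈ Wp F G Y Y' Z Z', 0 < 1 - G.h (p2 b) ∧ 1 - G.h (p2 b) ≤ 1 ∧
      0 < 1 - F.h (p1 b) ∧ 1 - F.h (p1 b) ≤ 1 := by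
    intro b hb
    have h1 := h_nonneg hF (p1 b)
    have h2 := h_nonneg hG (p2 b)
    have h3 := hb.1
    exact ⟨by linarith, by linarith, by linarith, by linarith⟩
  refine ⟨Wp F G Y Y' Z Z', ?_⟩
  rw [hconst]
  refine ⟨Wp_meas hF hG hQ.measY hQ'.measY hZ.measZ hZ'.measZ,
    Wp_null hA hR hF hG hQ.measY hQ'.measY hZ.measZ hZ'.measZ hQ.nullY hQ'.nullY hZ.nullZ
      hZ'.nullZ, fun b hb => hb.1, ?_, ?_, ?_, ?_, ?_⟩
  · exact (hmeasA.const_mul _).add (hmeasB'.const_mul _)
  · intro b hb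
    obtain ⟨k1, k2, k3, k4⟩ := key b hb
    obtain ⟨w1, w2, w3, w4, w5⟩ := hb
    have l1 : 0 ≤ LQ' (p2 b) := hQ'.nonneg _ w3 (by linarith)
    have l2 : 0 ≤ LQ (p1 b) := hQ.nonneg _ w2 (by linarith)
    have l3 := hZ.nonneg _ w4
    have l4 := hZ'.nonneg _ w5
    have l5 : 0 ≤ -(((n : ℝ) + 1) * Real.log (1 - G.h (p2 b))) := by
      have := mul_nonneg (show (0 : ℝ) ≤ n + 1 by positivity)
        (neg_nonneg.2 (Real.log_nonpos k1.le k2))
      linarith
    have l6 : 0 ≤ -(((m : ℝ) + 1) * Real.log (1 - F.h (p1 b))) := by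
      have := mul_nonneg (show (0 : ℝ) ≤ m + 1 by positivity)
        (neg_nonneg.2 (Real.log_nonpos k3.le k4))
      linarith
    unfold LZP LZA LZB
    exact add_nonneg (mul_nonneg hs (by linarith)) (mul_nonneg ht (by linarith))
  · intro b hb τ
    obtain ⟨w1, w2, w3, w4, w5⟩ := hb
    have e1 := hZb n m U V U' V' F G α' mu' LQ' Y' qa' lam LZ Z g hF hG hK' hQ' hZ b w1 w3 w4 τ
    have e2 := hZb m n U' V' U V G F α mu LQ Y qa lam' LZ' Z' g' hG hF hK hQ hZ' (sw b)
      (by rw [p1_sw, p2_sw, add_comm]; exact w1) (by rw [p2_sw]; exact w2)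
      (by rw [p1_sw, p2_sw]; exact w5) (fun a => τ a.swap)
    have e3 : ∫⁻ z, ENNReal.ofReal (Real.exp (z ⬝ᵥ sw b -
        ⨆ a, ((G.prod F).u a ⬝ᵥ z - τ a.swap))) =
        ∫⁻ z, ENNReal.ofReal (Real.exp (z ⬝ᵥ b - ⨆ a, ((F.prod G).u a ⬝ᵥ z - τ a))) := by
      have := lint_sw hA (ig G F (sw b) (fun a => τ a.swap)) (ig_meas G F (sw b) _)
      simp_rw [ig_sw] at this
      exact this.symm
    rw [e3] at e2
    refine (le_exp_conv hs ht hst e1 e2).trans (ENNReal.ofReal_le_ofReal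
      (Real.exp_le_exp.2 (le_of_eq ?_)))
    rw [Fintype.sum_sum_type, LZP, LZB_eq, p1_sw, p2_sw]
    simp only [lamP, Sum.swap_inl, Sum.swap_inr, add_mul, Finset.sum_add_distrib]
    simp only [mul_add, Finset.mul_sum]
    have r1 : ∀ a, (n : ℝ) / (n + m) * ((1 - G.h (p2 b)) * lam ((1 - G.h (p2 b))⁻¹ • p1 b) a *
        τ (Sum.inl a)) = (n : ℝ) / (n + m) * ((1 - G.h (p2 b)) *
          lam ((1 - G.h (p2 b))⁻¹ • p1 b) a) * τ (Sum.inl a) := fun a => by ring
    have r2 : ∀ a, (n : ℝ) / (n + m) * (mu' (p2 b) a * τ (Sum.inr a)) =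
        (n : ℝ) / (n + m) * mu' (p2 b) a * τ (Sum.inr a) := fun a => by ring
    have r3 : ∀ a, (m : ℝ) / (n + m) * ((1 - F.h (p1 b)) * lam' ((1 - F.h (p1 b))⁻¹ • p2 b) a *
        τ (Sum.inr a)) = (m : ℝ) / (n + m) * ((1 - F.h (p1 b)) *
          lam' ((1 - F.h (p1 b))⁻¹ • p2 b) a) * τ (Sum.inr a) := fun a => by ring
    have r4 : ∀ a, (m : ℝ) / (n + m) * (mu (p1 b) a * τ (Sum.inl a)) =
        (m : ℝ) / (n + m) * mu (p1 b) a * τ (Sum.inl a) := fun a => by ring
    simp_rw [r1, r2, r3, r4]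
    ring
  · exact add_nonneg (mul_nonneg hs hcA) (mul_nonneg ht hcB)
  · have i1 : ∫⁻ b in (F.prod G).pol, ENNReal.ofReal (LZB F LQ LZ' b) ≤
        ENNReal.ofReal (cA m n qa g') * volume (F.prod G).pol := by
      simp_rw [LZB_eq]
      rw [vol_sw hA hF hG (fun b => ENNReal.ofReal (LZA F LQ LZ' b)) hmeasB.ennreal_ofReal,
        ← hvol]
      exact hmB
    have hle : ∀ b : Fin (n + m) → ℝ, ENNReal.ofReal (LZP F G LQ LQ' LZ LZ' b) ≤
        ENNReal.ofReal ((n : ℝ) / (n + m)) * ENNReal.ofReal (LZA G LQ' LZ b) +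
          ENNReal.ofReal ((m : ℝ) / (n + m)) * ENNReal.ofReal (LZB F LQ LZ' b) := by
      intro b
      rw [← ENNReal.ofReal_mul hs, ← ENNReal.ofReal_mul ht]
      exact ENNReal.ofReal_add_le
    calc ∫⁻ b in (F.prod G).pol, ENNReal.ofReal (LZP F G LQ LQ' LZ LZ' b)
        ≤ ∫⁻ b in (F.prod G).pol, (ENNReal.ofReal ((n : ℝ) / (n + m)) *
            ENNReal.ofReal (LZA G LQ' LZ b) +
          ENNReal.ofReal ((m : ℝ) / (n + m)) * ENNReal.ofReal (LZB F LQ LZ' b)) :=
          lintegral_mono hle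
      _ = ENNReal.ofReal ((n : ℝ) / (n + m)) *
            (∫⁻ b in (F.prod G).pol, ENNReal.ofReal (LZA G LQ' LZ b)) +
          ENNReal.ofReal ((m : ℝ) / (n + m)) *
            ∫⁻ b in (F.prod G).pol, ENNReal.ofReal (LZB F LQ LZ' b) := by
          rw [lintegral_add_left (hmeasA.ennreal_ofReal.const_mul _),
            lintegral_const_mul' _ _ ENNReal.ofReal_ne_top,
            lintegral_const_mul' _ _ ENNReal.ofReal_ne_top]
      _ ≤ ENNReal.ofReal ((n : ℝ) / (n + m)) *
            (ENNReal.ofReal (cA n m qa' g) * volume (F.prod G).pol) +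
          ENNReal.ofReal ((m : ℝ) / (n + m)) *
            (ENNReal.ofReal (cA m n qa g') * volume (F.prod G).pol) := by
          gcongr
      _ = ENNReal.ofReal ((n : ℝ) / (n + m) * cA n m qa' g + (m : ℝ) / (n + m) * cA m n qa g') *
            volume (F.prod G).pol := by
          rw [ENNReal.ofReal_add (mul_nonneg hs hcA) (mul_nonneg ht hcB),
            ENNReal.ofReal_mul hs, ENNReal.ofReal_mul ht]
          ring

end Pool.Agent.TH730.LP931
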